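import Pool.Agent.Helper96.GU.St

/-!
Project GU (MP_2c90c1_al), module LFT: the lift of paths to the infinite cyclic cover of a cochain.
-/

set_option autoImplicit false

namespace Pool.Agent.Helper42.GU

open Pool.Agent.Helper96.UT hiding StTOP TopV TopE tht Bd VC EC
open Pool.Agent.Helper96.GU

section aux

variable {α Ω : Type} [MulAction (FreeGroup α) Ω]

private theorem vt_zp (θ : Ω × α → ℤ) (v : Ω) (w : List (α × Bool)) (i : ℕ) :
    vt (zp θ v 0) w i = zp θ (vt v w i) (Sa θ v (FreeGroup.mk (w.take i))) := by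
  rw [vt, act_zp, zero_add]
  rfl

private theorem mem_VW {W : Finset (List (α × Bool))} {v : Ω} {x : Ω} :
    x ∈ VW W v ↔ ∃ w ∈ W, ∃ i, i < w.length + 1 ∧ vt v w i = x := by
  classical
  unfold VW
  simp only [Finset.mem_biUnion, Finset.mem_image, Finset.mem_range]

private theorem inj_VW (θ : Ω × α → ℤ) (W : Finset (List (α × Bool))) (v : Ω)
    (hc : (VW W (zp θ v 0)).card ≤ (VW W v).card) (x y : Zc θ)
    (hx : x ∈ VW W (zp θ v 0)) (hy : y ∈ VW W (zp θ v 0)) (h : x.1 = y.1) : x = y := by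
  classical
  have himg : (VW W (zp θ v 0)).image (fun x : Zc θ => x.1) = VW W v := by
    ext p
    rw [Finset.mem_image, mem_VW]
    constructor
    · rintro ⟨y, hy, rfl⟩
      obtain ⟨w, hw, i, hi, rfl⟩ := mem_VW.1 hy
      refine ⟨w, hw, i, hi, ?_⟩
      rw [vt_zp]
      rfl
    · rintro ⟨w, hw, i, hi, rfl⟩
      refine ⟨vt (zp θ v 0) w i, mem_VW.2 ⟨w, hw, i, hi, rfl⟩, ?_⟩
      rw [vt_zp]
      rfl
  have hcard : ((VW W (zp θ v 0)).image (fun x : Zc θ => x.1)).card = (VW W (zp θ v 0)).card := by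
    refine le_antisymm Finset.card_image_le ?_
    rw [himg]
    exact hc
  exact Finset.card_image_iff.1 hcard (Finset.mem_coe.2 hx) (Finset.mem_coe.2 hy) h

end aux

theorem tLFT : StLFT := by
  intro α Ω inst θ W v hc x q hq hx
  classical
  let g : Ω → ℤ := fun p => if h : ∃ m : ℤ, zp θ p m ∈ VW W (zp θ v 0) then h.choose else 0
  have hg : ∀ (p : Ω) (m : ℤ), zp θ p m ∈ VW W (zp θ v 0) → g p = m := by
    intro p m hm
    have h : ∃ m : ℤ, zp θ p m ∈ VW W (zp θ v 0) := ⟨m, hm⟩
    have h1 : g p = h.choose := dif_pos h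
    have h2 := inj_VW θ W v hc _ _ h.choose_spec hm rfl
    rw [h1]
    exact congrArg Prod.snd h2
  have hgv : ∀ w ∈ W, ∀ i, i ≤ w.length → g (vt v w i) = Sa θ v (FreeGroup.mk (w.take i)) := by
    intro w hw i hi
    apply hg
    rw [← vt_zp]
    exact mem_VW.2 ⟨w, hw, i, by omega, rfl⟩
  have hcob : ∀ e ∈ EW W v, θ e = g (act e.1 (lt (e.2, true))) - g e.1 := by
    rintro e ⟨w, hw, i, hi, rfl⟩
    have h1 := hgv w hw i hi.le
    have h2 := hgv w hw (i + 1) hi
    have h3 : Sa θ v (FreeGroup.mk (w.take (i + 1))) =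
        Sa θ v (FreeGroup.mk (w.take i)) + Sa θ (vt v w i) (lt w[i]) := by
      have : w.take (i + 1) = w.take i ++ [w[i]] := (List.take_append_getElem hi).symm
      rw [this, mk_append, Sa_mul]
      rfl
    rw [Sa_lt] at h3
    have h4 := vt_succ v w i hi
    rw [h4] at h2
    generalize vt v w i = p at *
    generalize w[i] = y at *
    rcases y with ⟨a, b⟩
    cases b
    · have h5 : act (act p (lt (a, false))) (lt (a, true)) = p := by
        have : ((a, true) : α × Bool) = bar (a, false) := rfl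
        rw [this, lt_bar]
        exact act_inv_eq rfl
      simp only [ed, Bool.false_eq_true, if_false] at h3 ⊢
      rw [h5]
      linarith
    · simp only [ed, if_true] at h3 ⊢
      linarith
  rw [Sm_congr_on hcob hq, Sm_cob, hx, sub_self]

end Pool.Agent.Helper42.GU
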